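import Pool.Agent.MP_ed9623_an.H77.SpecW

/-! The test function of the difference quotient method. -/

open MeasureTheory Filter Topology Set
open scoped ContDiff

namespace Pool.Agent.MP_ed9623_an.H77

open H64

namespace DqT

/-- The commutator coefficient of a difference and the derivatives `D_i`. -/
noncomputable def cf (γ : ℝ → ℝ) (h : ℝ) (i : Fin 2) : P → ℝ :=
  ![fun p => deriv γ (p.1 + h) - deriv γ p.1, fun _ => 0] i

variable {γ : ℝ → ℝ} {f : P → ℝ} {d : Fin 2 → P → ℝ}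

theorem cf_meas (hγ : Gam γ) (h : ℝ) (i : Fin 2) : AEStronglyMeasurable (cf γ h i) volume := by
  have c := hγ.deriv.sm.continuous
  fin_cases i
  · exact (show Continuous fun p : P => deriv γ (p.1 + h) - deriv γ p.1 by
      fun_prop).aestronglyMeasurable
  · exact aestronglyMeasurable_const

theorem cf_bd {Lc : ℝ} (h0 : 0 ≤ Lc) (hL : ∀ y t, |deriv γ (y + t) - deriv γ y| ≤ Lc * |t|)
    (h : ℝ) (i : Fin 2) (p : P) : |cf γ h i p| ≤ Lc * |h| := by
  fin_cases i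
  · exact hL _ _
  · simpa [cf] using mul_nonneg h0 (abs_nonneg h)

theorem h1_dl (hγ : Gam γ) (hf : H1 γ f d) (h : ℝ) :
    H1 γ (dl h f) fun i p => dl h (d i) p + cf γ h i p * sh h (d 1) p := by
  have m0 := (hf.md 0).add ((hf.md 1).gmul hγ.deriv)
  refine (H1O.of_wd hγ (hf.m.dl h) (m0.dl h) ((hf.md 1).dl h) ((hf.wd0 hγ).dl hf.m m0 h)
    (hf.wd1.dl hf.m (hf.md 1) h)).congr EventuallyEq.rfl fun i => Eventually.of_forall fun p => ?_
  fin_cases i
  · simp [cf, dl, sh]; ring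
  · simp [cf]

theorem nm_dl (hA : AvS) (hγ : Gam γ) {B M : ℝ} (hB : 0 ≤ B) (hb : ∀ y, |deriv γ y| ≤ B)
    (hf : H1 γ f d) (hM : ∀ i, nm (d i) ≤ M) (h : ℝ) : nm (dl h f) ≤ |h| * ((1 + B) * M) := by
  have m1 := (hf.md 1).gmul hγ.deriv
  have m0 := (hf.md 0).add m1
  refine ((hA h f hf.m).2.2.2.1 _ m0 (hf.wd0 hγ)).2.trans
    (mul_le_mul_of_nonneg_left ?_ (abs_nonneg h))
  have a := nm_add_le (hf.md 0) m1
  have b := nm_bmul (m := fun p : P => deriv γ p.1) (hf.md 1) hB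
    (Eventually.of_forall fun p => hb p.1)
  have c := mul_le_mul_of_nonneg_left (hM 1) hB
  have e := hM 0
  linarith

end DqT

open DqT in
theorem rowDqT : OfDqT := by
  intro hA γ χ hγ hχ
  obtain ⟨B, hB, hb⟩ := hγ.deriv.bd
  obtain ⟨Lc, hL0, hL⟩ := hγ.deriv.lip
  obtain ⟨K0, hK0, hk0⟩ := hχ.bd
  obtain ⟨K1, hK1, hk1⟩ := (hχ.dd hγ 0).bd
  obtain ⟨K2, hK2, hk2⟩ := (hχ.dd hγ 1).bd
  have hkd : ∀ i x, |dd γ i χ x| ≤ K1 + K2 := fun i x => by
    fin_cases i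
    · exact (hk1 x).trans (le_add_of_nonneg_right hK2)
    · exact (hk2 x).trans (le_add_of_nonneg_left hK1)
  obtain ⟨C1, hC1⟩ : ∃ C1, C1 = K0 * Lc + 2 * ((K1 + K2) * (1 + B)) + 1 := ⟨_, rfl⟩
  have c1 : 0 ≤ C1 := by rw [hC1]; positivity
  obtain ⟨C2, hC2⟩ : ∃ C2, C2 = K0 * (1 + C1) := ⟨_, rfl⟩
  have c2 : 0 ≤ C2 := by rw [hC2]; positivity
  refine ⟨C1 + Lc * C2 + (1 + B) * C2, by positivity, fun h R φ ϱ d e hφ hd hϱ he => ?_⟩
  have hR : 0 ≤ R := (nm_nonneg _).trans (hd 0)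
  have hh := abs_nonneg h
  have hu := h1_dl hγ hφ h
  have nu := nm_dl hA hγ hB hb hφ hd h
  -- the functions `ρ`
  obtain ⟨ρ, hρ⟩ : ∃ ρ : Fin 2 → P → ℝ, ρ = fun i p =>
    χ p * (cf γ h i p * sh h (d 1) p) + 2 * (dd γ i χ p * dl h φ p) + e i p := ⟨_, rfl⟩
  have hρm : ∀ i, M2 (ρ i) ∧ nm (ρ i) ≤ C1 * (R * |h|) := fun i => by
    have m1 : M2 fun p => cf γ h i p * sh h (d 1) p :=
      ((hφ.md 1).sh h).bmul (cf_meas hγ h i) (Eventually.of_forall (cf_bd hL0 hL h i))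
    have n1 := nm_bmul ((hφ.md 1).sh h) (mul_nonneg hL0 hh)
      (Eventually.of_forall (cf_bd hL0 hL h i))
    rw [nm_sh] at n1
    have m2 := m1.tmul hχ
    have n2 := nm_bmul m1 hK0 (Eventually.of_forall hk0)
    have m3 := hu.m.tmul (hχ.dd hγ i)
    have n3 := nm_bmul hu.m (add_nonneg hK1 hK2) (Eventually.of_forall (hkd i))
    have m4 := m3.cmul 2
    have n4 := nm_cmul 2 fun p => dd γ i χ p * dl h φ p
    rw [abs_two] at n4
    have a1 := nm_add_le m2 m4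
    have a2 := nm_add_le (m2.add m4) (he i).1
    have a3 := mul_le_mul_of_nonneg_left
      (n1.trans (mul_le_mul_of_nonneg_left (hd 1) (mul_nonneg hL0 hh))) hK0
    have a4 := mul_le_mul_of_nonneg_left nu (add_nonneg hK1 hK2)
    have a5 := (he i).2
    rw [hρ]
    refine ⟨(m2.add m4).add (he i).1, ?_⟩
    rw [hC1]
    nlinarith
  have hX : H1 γ (fun p => χ p ^ 2 * dl h φ p + ϱ p)
      (fun i p => χ p ^ 2 * dl h (d i) p + χ p * ρ i p) := by
    refine ((H1O.cut (H1O.cut hu hγ hχ) hγ hχ).add hϱ hγ).congr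
      (Eventually.of_forall fun p => by simp only; ring) fun i => Eventually.of_forall fun p => ?_
    rw [hρ]
    simp only
    ring
  obtain ⟨N, hN⟩ : ∃ N, N = ∑ l, nm fun p => χ p * dl h (d l) p := ⟨_, rfl⟩
  have hNi : ∀ i, nm (fun p => χ p * dl h (d i) p) ≤ N := fun i => by
    rw [hN]
    exact Finset.single_le_sum (f := fun l => nm fun p => χ p * dl h (d l) p)
      (fun _ _ => nm_nonneg _) (Finset.mem_univ i)
  have hN0 : 0 ≤ N := (nm_nonneg _).trans (hNi 0)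
  have hRh : 0 ≤ R * |h| := mul_nonneg hR hh
  have hG : ∀ i, nm (fun p => χ p ^ 2 * dl h (d i) p + χ p * ρ i p) ≤ C2 * (R * |h| + N) :=
    fun i => by
      have m1 := ((hφ.md i).dl h).tmul hχ
      have e1 : (fun p => χ p ^ 2 * dl h (d i) p + χ p * ρ i p)
          = fun p => χ p * (χ p * dl h (d i) p + ρ i p) := funext fun p => by ring
      have a1 := nm_bmul (m1.add (hρm i).1) hK0 (Eventually.of_forall hk0)
      have a2 := nm_add_le m1 (hρm i).1
      have a3 : nm (fun p => χ p * dl h (d i) p + ρ i p) ≤ (1 + C1) * (R * |h| + N) := by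
        have := hNi i
        have := (hρm i).2
        nlinarith [mul_nonneg c1 hN0]
      rw [e1, hC2, mul_assoc]
      exact a1.trans (mul_le_mul_of_nonneg_left a3 hK0)
  have hS : 0 ≤ |h| * (R * |h| + N) := by positivity
  have hY := h1_dl hγ hX (-h)
  have nY := nm_dl hA hγ hB hb hX hG (-h)
  rw [abs_neg] at nY
  rw [← hN]
  refine ⟨ρ, fun i p => cf γ (-h) i p *
    sh (-h) (fun p => χ p ^ 2 * dl h (d 1) p + χ p * ρ 1 p) p, fun i => ⟨(hρm i).1, ?_, ?_, ?_⟩,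
    hX, hY, ?_⟩
  · exact ((hX.md 1).sh (-h)).bmul (cf_meas hγ (-h) i)
      (Eventually.of_forall (cf_bd hL0 hL (-h) i))
  · refine (hρm i).2.trans (mul_le_mul_of_nonneg_right ?_ hRh)
    nlinarith [mul_nonneg hL0 c2, mul_nonneg hB c2]
  · have n1 := nm_bmul ((hX.md 1).sh (-h)) (mul_nonneg hL0 (abs_nonneg (-h)))
      (Eventually.of_forall (cf_bd hL0 hL (-h) i))
    rw [nm_sh, abs_neg] at n1
    have a := mul_le_mul_of_nonneg_left (hG 1) (mul_nonneg hL0 hh)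
    refine (n1.trans a).trans ?_
    nlinarith [mul_nonneg c1 hS, mul_nonneg (mul_nonneg hB c2) hS, mul_nonneg c2 hS]
  · refine nY.trans ?_
    nlinarith [mul_nonneg c1 hS, mul_nonneg (mul_nonneg hL0 c2) hS]

end Pool.Agent.MP_ed9623_an.H77
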